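import Pool.Agent.H174.GP.StP

/-!
# `gp_cdet`: deterministic comparison of the fine and the coarse process (project GP, helper174)
-/

open Finset

namespace Pool.Agent.H981.GP174

open Pool.Agent.H174.GP

theorem tele (a b : ℕ) (ha : 1 ≤ a) (hab : a ≤ b) :
    ∑ j ∈ Finset.Ico a b, 1 / ((j : ℝ) * ((j : ℝ) + 1)) = 1 / (a : ℝ) - 1 / (b : ℝ) := by
  induction b, hab using Nat.le_induction with
  | base => simp
  | succ b hb ih =>
    rw [Finset.sum_Ico_succ_top hb, ih]
    have hb0 : (0 : ℝ) < b := by exact_mod_cast (lt_of_lt_of_le ha hb)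
    have hb1 : (0 : ℝ) < (b : ℝ) + 1 := by linarith
    push_cast
    field_simp
    ring

theorem blocks (K x n : ℕ) (hxn : x ≤ n) (f : ℕ → ℝ) :
    ∑ j ∈ Finset.Ico (K * x) (K * n), f j
      = ∑ i ∈ Finset.Ico x n, ∑ j ∈ Finset.Ico (K * i) (K * (i + 1)), f j := by
  induction n, hxn using Nat.le_induction with
  | base => simp
  | succ n hn ih =>
    rw [Finset.sum_Ico_succ_top hn, ← ih,
      Finset.sum_Ico_consecutive _ (Nat.mul_le_mul_left K hn) (Nat.mul_le_mul_left K (Nat.le_succ n))]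

theorem Tbound (u : ℕ → ℝ) (hu : ∀ i : ℕ, 1 ≤ i → 1 ≤ u i ∧ u i ^ 4 = i)
    (hmono : ∀ i : ℕ, u i ≤ u (i + 1)) (x n : ℕ) (hx : 1 ≤ x) (hxn : x ≤ n) :
    (∑ i ∈ Finset.Ico x n, u i * (1 / ((i : ℝ) * ((i : ℝ) + 1)))) + u n / n
      ≤ 4 / u x ^ 3 - 3 / u n ^ 3 := by
  induction n, hxn using Nat.le_induction with
  | base =>
    obtain ⟨h1, h4⟩ := hu x hx
    have h0 : 0 < u x := by linarith
    rw [Finset.Ico_self, Finset.sum_empty, zero_add, ← h4]
    have : u x / u x ^ 4 = 1 / u x ^ 3 := by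
      field_simp
    rw [this]
    have : 4 / u x ^ 3 - 3 / u x ^ 3 = 1 / u x ^ 3 := by ring
    rw [this]
  | succ n hn ih =>
    rw [Finset.sum_Ico_succ_top hn]
    have hn1 : 1 ≤ n := le_trans hx hn
    obtain ⟨a1, a4⟩ := hu n hn1
    obtain ⟨b1, b4⟩ := hu (n + 1) (by omega)
    have hm := hmono n
    have ha0 : 0 < u n := by linarith
    have hb0 : 0 < u (n + 1) := by linarith
    have hx0 := (hu x hx).1
    generalize u (n + 1) = b at *
    generalize u n = a at *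
    have hn' : (n : ℝ) = a ^ 4 := a4.symm
    have hn2 : (n : ℝ) + 1 = b ^ 4 := by rw [b4]; push_cast; ring
    have hn3 : ((n + 1 : ℕ) : ℝ) = b ^ 4 := b4.symm
    have key : a * (1 / ((n : ℝ) * ((n : ℝ) + 1))) + b / ((n + 1 : ℕ) : ℝ) - a / (n : ℝ)
        = (b - a) / b ^ 4 := by
      rw [hn3]
      have h1 : (1 : ℝ) / ((n : ℝ) * ((n : ℝ) + 1)) = 1 / (n : ℝ) - 1 / b ^ 4 := by
        rw [← hn2]
        have : (0 : ℝ) < n := by exact_mod_cast hn1
        field_simp
        ring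
      rw [h1]
      have : (0 : ℝ) < n := by exact_mod_cast hn1
      field_simp
      ring
    have step : (b - a) / b ^ 4 ≤ 3 / a ^ 3 - 3 / b ^ 3 := by
      have e1 : 3 / a ^ 3 - 3 / b ^ 3 = (b - a) / b ^ 4 * (3 * b * (a ^ 2 + a * b + b ^ 2) / a ^ 3) := by
        field_simp
        ring
      rw [e1]
      have h0 : 0 ≤ (b - a) / b ^ 4 := by
        apply div_nonneg (by linarith) (by positivity)
      have h1 : 1 ≤ 3 * b * (a ^ 2 + a * b + b ^ 2) / a ^ 3 := by
        rw [le_div_iff₀ (by positivity)]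
        have : a * a ^ 2 ≤ b * a ^ 2 := mul_le_mul_of_nonneg_right hm (by positivity)
        have h3 : 0 ≤ b * (a * b) := by positivity
        have h4 : 0 ≤ b * b ^ 2 := by positivity
        have h5 : 0 ≤ b * a ^ 2 := by positivity
        nlinarith
      exact le_mul_of_one_le_right h0 h1
    linarith

/-- Deterministic comparison of the fine and the coarse process. -/
theorem gp_cdet (h1 : S_abel) : Pool.Agent.H174.GP.S_cdet := by
  intro K n x0 ω ω' l δ hK hn hx0 hl hδ hbig H1 H2 H3 y hy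
  rw [Finset.mem_Icc] at hy
  -- fourth roots
  set u : ℕ → ℝ := fun i => (i : ℝ) ^ (1 / 4 : ℝ) with hu_def
  have hu4 : ∀ i : ℕ, u i ^ 4 = i := by
    intro i
    simp only [hu_def]
    rw [← Real.rpow_natCast, ← Real.rpow_mul (Nat.cast_nonneg i)]
    norm_num
  have hu1 : ∀ i : ℕ, 1 ≤ i → 1 ≤ u i ∧ u i ^ 4 = i := by
    intro i hi
    refine ⟨?_, hu4 i⟩
    simp only [hu_def]
    exact Real.one_le_rpow (by exact_mod_cast hi) (by norm_num)
  have humono : ∀ i j : ℕ, i ≤ j → u i ≤ u j := by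
    intro i j hij
    simp only [hu_def]
    exact Real.rpow_le_rpow (Nat.cast_nonneg i) (by exact_mod_cast hij) (by norm_num)
  have husq : ∀ i : ℕ, Real.sqrt i = u i ^ 2 := by
    intro i
    have h0 : 0 ≤ u i := by simp only [hu_def]; positivity
    rw [← hu4 i]
    have : u i ^ 4 = (u i ^ 2) ^ 2 := by ring
    rw [this, Real.sqrt_sq (by positivity)]
  set D : ℝ := 8 * l ^ (3 / 2 : ℝ) with hD_def
  have hl32 : l ≤ l ^ (3 / 2 : ℝ) := by
    calc l = l ^ (1 : ℝ) := (Real.rpow_one l).symm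
      _ ≤ l ^ (3 / 2 : ℝ) := Real.rpow_le_rpow_of_exponent_le hl (by norm_num)
  have hl0 : 0 < l := by linarith
  have hD0 : 0 < D := by
    simp only [hD_def]; positivity
  have h5D : 5 * D + l ≤ 41 * l ^ (3 / 2 : ℝ) := by
    simp only [hD_def]; linarith
  -- the block of y
  have hKpos : 0 < K := hK
  set x : ℕ := y / K with hx_def
  have hx0x : x0 ≤ x := by
    rw [hx_def, Nat.le_div_iff_mul_le hKpos, mul_comm]; exact hy.1
  have hxn : x ≤ n := by
    rw [hx_def]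
    exact Nat.div_le_of_le_mul hy.2
  have hx1 : 1 ≤ x := le_trans hx0 hx0x
  have hKxy : K * x ≤ y := Nat.mul_div_le y K
  have hyKx : y < K * (x + 1) := by
    have := Nat.lt_mul_div_succ y hKpos
    simpa [hx_def] using this
  have hKx1 : 1 ≤ K * x := Nat.mul_pos hKpos hx1
  have hy1 : 1 ≤ y := le_trans hKx1 hKxy
  have hKr : (0 : ℝ) < K := by exact_mod_cast hKpos
  have hsK : 0 < Real.sqrt K := Real.sqrt_pos.mpr hKr
  have hxr : (0 : ℝ) < x := by exact_mod_cast hx1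
  have hnr : (0 : ℝ) < n := by exact_mod_cast hn
  have hyr : (0 : ℝ) < y := by exact_mod_cast hy1
  set sK : ℝ := Real.sqrt K with hsK_def
  -- Abel summation
  have hab1 := h1 ω (K * n) y hy1 hy.2
  have hab2 := h1 ω' n x hx1 hxn
  have hH3 := H3 x (Finset.mem_Icc.mpr ⟨hx0x, hxn⟩)
  -- factor
  have hCy : Ch ω (K * n) y = (y : ℝ) * ((∑ j ∈ Finset.Ico y (K * n), (1 / ((j : ℝ) * ((j : ℝ) + 1))) * S ω j)
      + (1 / ((K * n : ℕ) : ℝ)) * S ω (K * n)) := by
    rw [hab1, mul_add, Finset.mul_sum]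
    congr 1
    · apply Finset.sum_congr rfl
      intro j hj
      ring
    · ring
  have hCx : Ch ω' n x = (x : ℝ) * ((∑ i ∈ Finset.Ico x n, (1 / ((i : ℝ) * ((i : ℝ) + 1))) * S ω' i)
      + (1 / (n : ℝ)) * S ω' n) := by
    rw [hab2, mul_add, Finset.mul_sum]
    congr 1
    · apply Finset.sum_congr rfl
      intro j hj
      ring
    · ring
  rw [hCy]
  apply mul_nonneg hyr.le
  -- split off the first partial block
  have hsplit : ∑ j ∈ Finset.Ico (K * x) (K * n), (1 / ((j : ℝ) * ((j : ℝ) + 1))) * S ω j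
      = ∑ j ∈ Finset.Ico (K * x) y, (1 / ((j : ℝ) * ((j : ℝ) + 1))) * S ω j
        + ∑ j ∈ Finset.Ico y (K * n), (1 / ((j : ℝ) * ((j : ℝ) + 1))) * S ω j :=
    (Finset.sum_Ico_consecutive _ hKxy hy.2).symm
  -- upper bound for the partial block
  have hcoefnn : ∀ j : ℕ, 0 ≤ 1 / ((j : ℝ) * ((j : ℝ) + 1)) := by
    intro j; positivity
  have hpart : ∑ j ∈ Finset.Ico (K * x) y, (1 / ((j : ℝ) * ((j : ℝ) + 1))) * S ω j
      ≤ (1 / ((K : ℝ) * x) - 1 / (y : ℝ)) * (sK * (l * u x ^ 2 + D * u x)) := by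
    have : ∑ j ∈ Finset.Ico (K * x) y, (1 / ((j : ℝ) * ((j : ℝ) + 1))) * S ω j
        ≤ ∑ j ∈ Finset.Ico (K * x) y, (1 / ((j : ℝ) * ((j : ℝ) + 1))) * (sK * (l * u x ^ 2 + D * u x)) := by
      apply Finset.sum_le_sum
      intro j hj
      rw [Finset.mem_Ico] at hj
      apply mul_le_mul_of_nonneg_left _ (hcoefnn j)
      have hh1 := H1 x (Finset.mem_Icc.mpr ⟨hx0x, hxn⟩) j hj.1 (lt_trans hj.2 hyKx)
        (le_trans hj.2.le hy.2)
      have hh2 := H2 x (Finset.mem_Icc.mpr ⟨hx0x, hxn⟩)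
      rw [husq x] at hh2
      have hh1' := (abs_le.mp hh1).2
      have hh2' := (abs_le.mp hh2).2
      have hh3 : sK * S ω' x ≤ sK * (l * u x ^ 2) := mul_le_mul_of_nonneg_left hh2' hsK.le
      have hh4 : sK * (l * u x ^ 2 + D * u x) = sK * (l * u x ^ 2) + sK * (D * u x) := by ring
      rw [hh4]
      have hh5 : S ω j - sK * S ω' x ≤ sK * (D * u x) := hh1'
      linarith
    refine le_trans this ?_
    rw [← Finset.sum_mul, tele _ _ hKx1 hKxy]
    push_cast
    exact le_refl _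
  -- lower bound for the whole sum
  have hfull : (sK / K) * ((∑ i ∈ Finset.Ico x n, (1 / ((i : ℝ) * ((i : ℝ) + 1))) * S ω' i)
        + (1 / (n : ℝ)) * S ω' n)
      - (sK / K) * D * ((∑ i ∈ Finset.Ico x n, u i * (1 / ((i : ℝ) * ((i : ℝ) + 1)))) + u n / n)
      ≤ (∑ j ∈ Finset.Ico (K * x) (K * n), (1 / ((j : ℝ) * ((j : ℝ) + 1))) * S ω j)
        + (1 / ((K * n : ℕ) : ℝ)) * S ω (K * n) := by
    rw [blocks K x n hxn]
    have hA : ∑ i ∈ Finset.Ico x n, ((sK / K) * ((1 / ((i : ℝ) * ((i : ℝ) + 1))) * S ω' i)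
          - (sK / K) * D * (u i * (1 / ((i : ℝ) * ((i : ℝ) + 1)))))
        ≤ ∑ i ∈ Finset.Ico x n, ∑ j ∈ Finset.Ico (K * i) (K * (i + 1)),
          (1 / ((j : ℝ) * ((j : ℝ) + 1))) * S ω j := by
      apply Finset.sum_le_sum
      intro i hi
      rw [Finset.mem_Ico] at hi
      have hi1 : 1 ≤ i := le_trans hx1 hi.1
      have hir : (0 : ℝ) < i := by exact_mod_cast hi1
      have hKi1 : 1 ≤ K * i := Nat.mul_pos hKpos hi1
      have hB : ∑ j ∈ Finset.Ico (K * i) (K * (i + 1)),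
            (1 / ((j : ℝ) * ((j : ℝ) + 1))) * (sK * (S ω' i - D * u i))
          ≤ ∑ j ∈ Finset.Ico (K * i) (K * (i + 1)), (1 / ((j : ℝ) * ((j : ℝ) + 1))) * S ω j := by
        apply Finset.sum_le_sum
        intro j hj
        rw [Finset.mem_Ico] at hj
        apply mul_le_mul_of_nonneg_left _ (hcoefnn j)
        have hjn : j ≤ K * n := by
          have : K * (i + 1) ≤ K * n := Nat.mul_le_mul_left K hi.2
          omega
        have hh1 := H1 i (Finset.mem_Icc.mpr ⟨le_trans hx0x hi.1, hi.2.le⟩) j hj.1 hj.2 hjn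
        have hh1' : -(sK * (D * u i)) ≤ S ω j - sK * S ω' i := (abs_le.mp hh1).1
        have : sK * (S ω' i - D * u i) = sK * S ω' i - sK * (D * u i) := by ring
        rw [this]
        linarith
      refine le_trans (le_of_eq ?_) hB
      rw [← Finset.sum_mul, tele _ _ hKi1 (Nat.mul_le_mul_left K (Nat.le_succ i))]
      push_cast
      field_simp
      ring
    rw [Finset.sum_sub_distrib, ← Finset.mul_sum, ← Finset.mul_sum] at hA
    have hC : (sK / K) * ((1 / (n : ℝ)) * S ω' n) - (sK / K) * D * (u n / n)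
        ≤ (1 / ((K * n : ℕ) : ℝ)) * S ω (K * n) := by
      have hh1 := H1 n (Finset.mem_Icc.mpr ⟨le_trans hx0x hxn, le_refl n⟩) (K * n) (le_refl _)
        (by
          have : n < n + 1 := Nat.lt_succ_self n
          exact Nat.mul_lt_mul_of_pos_left this hKpos) (le_refl _)
      have hh1' : -(sK * (D * u n)) ≤ S ω (K * n) - sK * S ω' n := (abs_le.mp hh1).1
      have hh2 : (1 / ((K : ℝ) * n)) * (sK * S ω' n - sK * (D * u n)) ≤ (1 / ((K : ℝ) * n)) * S ω (K * n) :=
        mul_le_mul_of_nonneg_left (by linarith) (by positivity)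
      push_cast
      refine le_trans (le_of_eq ?_) hh2
      field_simp
    rw [mul_add, mul_add]
    linarith
  -- T bound
  have hT := Tbound u hu1 (fun i => humono i (i + 1) (Nat.le_succ i)) x n hx1 hxn
  obtain ⟨hux1, hux4⟩ := hu1 x hx1
  obtain ⟨hun1, hun4⟩ := hu1 n hn
  have hux0 : 0 < u x := by linarith
  have hun0 : 0 < u n := by linarith
  have hT2 : (∑ i ∈ Finset.Ico x n, u i * (1 / ((i : ℝ) * ((i : ℝ) + 1)))) + u n / n ≤ 4 / u x ^ 3 := by
    have : 0 ≤ 3 / u n ^ 3 := by positivity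
    linarith
  have hfull2 : (sK / K) * (δ * u x ^ 2 / x) - (sK / K) * D * (4 / u x ^ 3)
      ≤ (∑ j ∈ Finset.Ico (K * x) (K * n), (1 / ((j : ℝ) * ((j : ℝ) + 1))) * S ω j)
        + (1 / ((K * n : ℕ) : ℝ)) * S ω (K * n) := by
    refine le_trans ?_ hfull
    have e1 : (sK / K) * (δ * u x ^ 2 / x) ≤ (sK / K) * ((∑ i ∈ Finset.Ico x n, (1 / ((i : ℝ) * ((i : ℝ) + 1))) * S ω' i)
        + (1 / (n : ℝ)) * S ω' n) := by
      apply mul_le_mul_of_nonneg_left _ (by positivity)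
      rw [div_le_iff₀ hxr, mul_comm _ (x : ℝ), ← hCx, ← husq x]
      exact hH3
    have e2 : (sK / K) * D * ((∑ i ∈ Finset.Ico x n, u i * (1 / ((i : ℝ) * ((i : ℝ) + 1)))) + u n / n)
        ≤ (sK / K) * D * (4 / u x ^ 3) :=
      mul_le_mul_of_nonneg_left hT2 (by positivity)
    linarith
  -- final inequality
  have hux : (41 * l ^ (3 / 2 : ℝ) / δ) ≤ u x := by
    have h0 : (0 : ℝ) ≤ 41 * l ^ (3 / 2 : ℝ) / δ := by positivity
    have h4 : (41 * l ^ (3 / 2 : ℝ) / δ) ^ 4 ≤ u x ^ 4 := by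
      rw [hux4]
      refine le_trans hbig ?_
      exact_mod_cast hx0x
    exact le_of_pow_le_pow_left₀ (by norm_num) hux0.le h4
  have hδux : 5 * D + l ≤ δ * u x := by
    rw [div_le_iff₀ hδ] at hux
    linarith
  have hpart2 : (1 / ((K : ℝ) * x) - 1 / (y : ℝ)) * (sK * (l * u x ^ 2 + D * u x))
      ≤ (sK / K) * ((l + D) * u x / x) := by
    have hy' : (y : ℝ) ≤ (K : ℝ) * ((x : ℝ) + 1) := by
      have : y ≤ K * (x + 1) := hyKx.le
      exact_mod_cast this
    have e1 : 1 / ((K : ℝ) * ((x : ℝ) + 1)) ≤ 1 / (y : ℝ) := one_div_le_one_div_of_le hyr hy'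
    have e2 : 1 / ((K : ℝ) * x) - 1 / (y : ℝ) ≤ 1 / ((K : ℝ) * x * ((x : ℝ) + 1)) := by
      have : 1 / ((K : ℝ) * x) - 1 / ((K : ℝ) * ((x : ℝ) + 1)) = 1 / ((K : ℝ) * x * ((x : ℝ) + 1)) := by
        field_simp
        ring
      linarith
    have e3 : 0 ≤ sK * (l * u x ^ 2 + D * u x) := by positivity
    refine le_trans (mul_le_mul_of_nonneg_right e2 e3) ?_
    have e4 : l * u x ^ 2 + D * u x ≤ (l + D) * u x * ((x : ℝ) + 1) := by
      rw [← hux4]
      have f1 : l * u x ^ 2 ≤ l * (u x * u x ^ 4) := by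
        apply mul_le_mul_of_nonneg_left _ hl0.le
        calc u x ^ 2 = u x * u x := by ring
          _ ≤ u x * u x ^ 4 := by
            apply mul_le_mul_of_nonneg_left _ hux0.le
            calc u x = u x ^ 1 := (pow_one _).symm
              _ ≤ u x ^ 4 := pow_le_pow_right₀ hux1 (by norm_num)
      have f2 : 0 ≤ l * u x := by positivity
      have f3 : 0 ≤ D * u x * u x ^ 4 := by positivity
      nlinarith
    have e5 : 1 / ((K : ℝ) * x * ((x : ℝ) + 1)) * (sK * (l * u x ^ 2 + D * u x))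
        ≤ 1 / ((K : ℝ) * x * ((x : ℝ) + 1)) * (sK * ((l + D) * u x * ((x : ℝ) + 1))) := by
      apply mul_le_mul_of_nonneg_left _ (by positivity)
      exact mul_le_mul_of_nonneg_left e4 hsK.le
    refine le_trans e5 (le_of_eq ?_)
    field_simp
  have hfin : (sK / K) * ((l + D) * u x / x) ≤ (sK / K) * (δ * u x ^ 2 / x) - (sK / K) * D * (4 / u x ^ 3) := by
    have e1 : 4 / u x ^ 3 = 4 * u x / x := by
      rw [← hux4]; field_simp
    rw [e1]
    have e2 : (sK / K) * (δ * u x ^ 2 / x) - (sK / K) * D * (4 * u x / x) - (sK / K) * ((l + D) * u x / x)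
        = (sK / K) * (u x / x) * (δ * u x - (5 * D + l)) := by
      ring
    have e3 : 0 ≤ (sK / K) * (u x / x) * (δ * u x - (5 * D + l)) := by
      apply mul_nonneg (by positivity)
      linarith
    linarith
  rw [hsplit] at hfull2
  linarith

end Pool.Agent.H981.GP174
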