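import Pool.Agent.H174.GP.StE
import Pool.Agent.H174.GP.StA

/-!
# Project GP of helper174: `S_DUa`, the inclusion of events for the upper bound (helper981)
-/

set_option autoImplicit false

open MeasureTheory ProbabilityTheory Finset Filter Topology

namespace Pool.Agent.H981.GP174

open Pool.Agent.H174.GP

theorem split_sum (a : ℕ → ℕ) (k L d : ℕ) (hk : 1 ≤ k) (hkL : k ≤ L) (hLd : L ≤ d) :
    ((∑ l : Fin d, ((min ((l : ℕ) + 1) k : ℕ) : ℤ) * (a ((l : ℕ) + 1) : ℤ) : ℤ) : ℝ) =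
      (a 1 : ℝ) + ∑ j ∈ Finset.Icc 2 L, ((min j k : ℕ) : ℝ) * (a j : ℝ) +
        (k : ℝ) * ∑ j ∈ Finset.Ioc L d, (a j : ℝ) := by
  have h1 : ((∑ l : Fin d, ((min ((l : ℕ) + 1) k : ℕ) : ℤ) * (a ((l : ℕ) + 1) : ℤ) : ℤ) : ℝ) =
      ∑ j ∈ Finset.Ico 1 (d + 1), ((min j k : ℕ) : ℝ) * (a j : ℝ) := by
    rw [Int.cast_sum]
    have h2 : ∀ l : Fin d, (((((min ((l : ℕ) + 1) k : ℕ) : ℤ) * (a ((l : ℕ) + 1) : ℤ) : ℤ)) : ℝ) =
        (fun i : ℕ => ((min (i + 1) k : ℕ) : ℝ) * (a (i + 1) : ℝ)) (l : ℕ) := by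
      intro l
      simp only [Int.cast_mul, Int.cast_natCast]
    rw [Finset.sum_congr rfl (fun l _ => h2 l),
      Fin.sum_univ_eq_sum_range (fun i : ℕ => ((min (i + 1) k : ℕ) : ℝ) * (a (i + 1) : ℝ)) d,
      Finset.range_eq_Ico]
    exact Finset.sum_Ico_add' (fun j : ℕ => ((min j k : ℕ) : ℝ) * (a j : ℝ)) 0 d 1
  have h3 : ∑ j ∈ Finset.Ico 1 (d + 1), ((min j k : ℕ) : ℝ) * (a j : ℝ) =
      ∑ j ∈ Finset.Ico 1 2, ((min j k : ℕ) : ℝ) * (a j : ℝ) +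
        ∑ j ∈ Finset.Ico 2 (L + 1), ((min j k : ℕ) : ℝ) * (a j : ℝ) +
        ∑ j ∈ Finset.Ico (L + 1) (d + 1), ((min j k : ℕ) : ℝ) * (a j : ℝ) := by
    rw [Finset.sum_Ico_consecutive _ (by norm_num) (by omega),
      Finset.sum_Ico_consecutive _ (by omega) (by omega)]
  have h4 : ∑ j ∈ Finset.Ico 1 2, ((min j k : ℕ) : ℝ) * (a j : ℝ) = (a 1 : ℝ) := by
    have h0 : Finset.Ico 1 2 = {1} := rfl
    rw [h0, Finset.sum_singleton, Nat.min_eq_left hk, Nat.cast_one, one_mul]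
  have h5 : Finset.Ico 2 (L + 1) = Finset.Icc 2 L := by
    ext j; simp only [Finset.mem_Ico, Finset.mem_Icc]; omega
  have h6 : Finset.Ico (L + 1) (d + 1) = Finset.Ioc L d := by
    ext j; simp only [Finset.mem_Ico, Finset.mem_Ioc]; omega
  have h7 : ∑ j ∈ Finset.Ioc L d, ((min j k : ℕ) : ℝ) * (a j : ℝ) =
      (k : ℝ) * ∑ j ∈ Finset.Ioc L d, (a j : ℝ) := by
    rw [Finset.mul_sum]
    apply Finset.sum_congr rfl
    intro j hj
    rw [Finset.mem_Ioc] at hj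
    rw [Nat.min_eq_right (by omega : k ≤ j)]
  rw [h1, h3, h4, h5, h6, h7]

/-- The real form of the row and column inequalities. -/
theorem core (k : ℝ) (x1 y1 SX SY P Q D D' A B : ℝ) (hk : 0 ≤ k)
    (hn : 0 ≤ k * (D - D') + (x1 + SX + k * P) - (y1 + SY + k * Q))
    (h1 : |x1 - y1| ≤ A / 2) (h2 : |(D - D') + P - Q| ≤ B / 2) :
    -(A + k * B) ≤ SX - SY := by
  have a1 := abs_le.1 h1
  have a2 := abs_le.1 h2
  have hA : 0 ≤ A := by linarith [abs_nonneg (x1 - y1)]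
  have hB : 0 ≤ B := by linarith [abs_nonneg ((D - D') + P - Q)]
  have a3 : k * ((D - D') + P - Q) ≤ k * (B / 2) := mul_le_mul_of_nonneg_left a2.2 hk
  have a4 : 0 ≤ k * B := mul_nonneg hk hB
  nlinarith [a1.2]

theorem core' (k : ℝ) (x1 y1 SX SY P Q D D' A B : ℝ) (hk : 0 ≤ k)
    (hn : k * (D - D') + (x1 + SX + k * P) - (y1 + SY + k * Q) ≤ 0)
    (h1 : |x1 - y1| ≤ A / 2) (h2 : |(D - D') + P - Q| ≤ B / 2) :
    -(A + k * B) ≤ SY - SX := by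
  have a1 := abs_le.1 h1
  have a2 := abs_le.1 h2
  have hA : 0 ≤ A := by linarith [abs_nonneg (x1 - y1)]
  have hB : 0 ≤ B := by linarith [abs_nonneg ((D - D') + P - Q)]
  have a3 : k * (-(B / 2)) ≤ k * ((D - D') + P - Q) := mul_le_mul_of_nonneg_left a2.1 hk
  have a4 : 0 ≤ k * B := mul_nonneg hk hB
  nlinarith [a1.1]

theorem gp_dua (h1 : S_domnec) (h2 : S_toPsum) : Pool.Agent.H174.GP.S_DUa := by
  intro d d' n σ σ' e hd he0 he1 hLd' hd' q hs hs' hdom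
  set L : ℕ := ⌊(d : ℝ) ^ (1 - e)⌋₊ with hL
  have hd1 : (1 : ℝ) ≤ (d : ℝ) := by
    have : (3 : ℝ) ≤ (d : ℝ) := by exact_mod_cast hd
    linarith
  have hLd : L ≤ d := by
    rw [hL]
    have : (d : ℝ) ^ (1 - e) ≤ (d : ℝ) ^ (1 : ℝ) := Real.rpow_le_rpow_of_exponent_le hd1 (by linarith)
    rw [Real.rpow_one] at this
    exact Nat.floor_le_of_le this
  have hlog : 1 ≤ Real.log d := by
    rw [Real.le_log_iff_exp_le (by linarith)]
    have h3 : (3 : ℝ) ≤ (d : ℝ) := by exact_mod_cast hd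
    have := Real.exp_one_lt_d9
    linarith
  have hlog8 : 1 ≤ (Real.log d) ^ 8 := one_le_pow₀ hlog
  by_cases hb1 : q.1 ∈ BadS d d' σ σ' e
  · exact Or.inl hb1
  by_cases hb2 : q.2 ∈ BadS d d' σ σ' e
  · exact Or.inr (Or.inl hb2)
  refine Or.inr (Or.inr ?_)
  unfold BadS at hb1 hb2
  simp only [Set.mem_ofPred_eq, not_or, not_lt] at hb1 hb2
  obtain ⟨hb11, hb12⟩ := hb1
  obtain ⟨hb21, hb22⟩ := hb2
  rw [← hL] at hb12 hb22
  have hsum : (toP d (gF d σ q.1.1) (gF d σ q.2.1)).sum =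
      (toP d' (gF d' σ' q.1.2) (gF d' σ' q.2.2)).sum := by
    rw [h2, h2, hs, hs']
  have hnec := h1 d d' (gF d σ q.1.1) (gF d σ q.2.1) (gF d' σ' q.1.2) (gF d' σ' q.2.2) hsum hdom
  -- the range of `k`
  have hkr : ∀ k ∈ Finset.Icc ⌈(Real.log d) ^ 8⌉₊ ⌊(L : ℝ) / (Real.log d) ^ 8⌋₊, 1 ≤ k ∧ k ≤ L := by
    intro k hk
    rw [Finset.mem_Icc] at hk
    constructor
    · have h3 : 1 ≤ ⌈(Real.log d) ^ 8⌉₊ := Nat.one_le_ceil_iff.2 (by linarith)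
      omega
    · have h3 : ⌊(L : ℝ) / (Real.log d) ^ 8⌋₊ ≤ L := by
        apply Nat.floor_le_of_le
        exact div_le_self (Nat.cast_nonneg _) hlog8
      omega
  have hconv : ∀ (s : ℝ) (ω : ℕ → ℝ) (m k : ℕ), 1 ≤ k → k ≤ L → L ≤ m →
      ((∑ l : Fin m, ((min ((l : ℕ) + 1) k : ℕ) : ℤ) * (gF m s ω l : ℤ) : ℤ) : ℝ) =
      (gs s ω 1 : ℝ) + ∑ j ∈ Finset.Icc 2 L, ((min j k : ℕ) : ℝ) * (gs s ω j : ℝ) +
        (k : ℝ) * ∑ j ∈ Finset.Ioc L m, (gs s ω j : ℝ) := by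
    intro s ω m k hk1 hk2 hm
    exact split_sum (fun j => gs s ω j) k L m hk1 hk2 hm
  constructor
  · intro k hk
    rw [← hL] at hk ⊢
    obtain ⟨hk1, hk2⟩ := hkr k hk
    have hn := (hnec k (hk2.trans hLd) (hk2.trans hLd')).1
    have hn' : (0 : ℝ) ≤ (((k : ℤ) * ((d : ℤ) - d') +
      ∑ l : Fin d, ((min ((l : ℕ) + 1) k : ℕ) : ℤ) * (gF d σ q.1.1 l : ℤ)
      - ∑ l : Fin d', ((min ((l : ℕ) + 1) k : ℕ) : ℤ) * (gF d' σ' q.1.2 l : ℤ) : ℤ) : ℝ) := by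
      exact_mod_cast hn
    rw [Int.cast_sub, Int.cast_add, hconv σ q.1.1 d k hk1 hk2 hLd, hconv σ' q.1.2 d' k hk1 hk2 hLd',
      Int.cast_mul, Int.cast_sub, Int.cast_natCast, Int.cast_natCast, Int.cast_natCast] at hn'
    have hc := core (k : ℝ) _ _ _ _ _ _ _ _ ((d : ℝ) * (Real.log d) ^ 2)
      (((d : ℝ) / Real.sqrt L) * (Real.log d) ^ 2) (Nat.cast_nonneg k) hn' hb11 hb12
    rw [← Finset.sum_sub_distrib] at hc
    simp only [← mul_sub] at hc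
    rw [← mul_assoc] at hc
    exact hc
  · intro k hk
    rw [← hL] at hk ⊢
    obtain ⟨hk1, hk2⟩ := hkr k hk
    have hn := (hnec k (hk2.trans hLd) (hk2.trans hLd')).2
    have hn' : (((k : ℤ) * ((d : ℤ) - d') +
      ∑ l : Fin d, ((min ((l : ℕ) + 1) k : ℕ) : ℤ) * (gF d σ q.2.1 l : ℤ)
      - ∑ l : Fin d', ((min ((l : ℕ) + 1) k : ℕ) : ℤ) * (gF d' σ' q.2.2 l : ℤ) : ℤ) : ℝ) ≤ 0 := by
      exact_mod_cast hn
    rw [Int.cast_sub, Int.cast_add, hconv σ q.2.1 d k hk1 hk2 hLd, hconv σ' q.2.2 d' k hk1 hk2 hLd',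
      Int.cast_mul, Int.cast_sub, Int.cast_natCast, Int.cast_natCast, Int.cast_natCast] at hn'
    have hc := core' (k : ℝ) _ _ _ _ _ _ _ _ ((d : ℝ) * (Real.log d) ^ 2)
      (((d : ℝ) / Real.sqrt L) * (Real.log d) ^ 2) (Nat.cast_nonneg k) hn' hb21 hb22
    rw [← Finset.sum_sub_distrib] at hc
    simp only [← mul_sub] at hc
    rw [← mul_assoc] at hc
    exact hc

end Pool.Agent.H981.GP174
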